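import Mathlib

/-!
# The snooker domination game on the grid `P_2 □ P_7` is a first-player win

Encoding: vertex `(a, b)` of `P_2 □ P_7` has index `7 a + b`, a set of vertices is a bit mask
`< 2 ^ 14`.  The first player picks the vertex of index `1` and then keeps the set of picked
vertices (after his moves) in the list `Ps` until he can complete a dominating set.
-/

namespace Pool.Agent.Results.MP_a0a898_co.FirstPlayerWinsP2P7

open SimpleGraph

/-- `D` is a dominating set of `G`: every vertex lies in `D` or has a neighbour in `D`. -/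
def IsDominating {V : Type*} (G : SimpleGraph V) (D : Finset V) : Prop := ∀ v, ∃ d ∈ D, d = v ∨ G.Adj d v

/-- In the snooker domination game on `G`, at a position where `D` is the set of picked vertices
(not a dominating set) and it is a player's turn: this player can force a win.  He can pick some
`v ∉ D` such that either `insert v D` is dominating (he has made the last pick and wins), or the
opponent, who is then to move, cannot force a win. -/
def MoverWins {V : Type*} [Fintype V] [DecidableEq V] (G : SimpleGraph V) (D : Finset V) : Prop :=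
  ∃ v, ∃ _hv : v ∉ D, IsDominating G (insert v D) ∨ ¬ MoverWins G (insert v D)
termination_by Fintype.card V - D.card
decreasing_by
  have h1 := Finset.card_insert_of_notMem _hv
  have h2 := Finset.card_le_univ (insert v D)
  omega

/-- The first player has a winning strategy in the snooker domination game on `G`. -/
def FirstPlayerWins {V : Type*} [Fintype V] [DecidableEq V] (G : SimpleGraph V) : Prop := MoverWins G ∅

/-- the `2 × 7` grid -/
abbrev G : SimpleGraph (Fin 2 × Fin 7) := pathGraph 2 □ pathGraph 7

/-- the index of a vertex -/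
def idx (p : Fin 2 × Fin 7) : ℕ := 7 * p.1.val + p.2.val

/-- the set of vertices coded by a bit mask -/
def dec (b : ℕ) : Finset (Fin 2 × Fin 7) := Finset.univ.filter fun p => b.testBit (idx p) = true

/-- the closed neighbourhoods as bit masks -/
def mk : List ℕ := [131, 263, 526, 1052, 2104, 4208, 8288, 385, 898, 1796, 3592, 7184, 14368,
  12352]

/-- domination test for a bit mask -/
def domB (c : ℕ) : Bool := mk.all fun m => m &&& c != 0

/-- the positions which the first player leaves to his opponent -/
def Ps : List ℕ := [2, 35, 70, 94, 110, 162, 274, 279, 295, 307, 419, 422, 434, 439, 590, 803, 930, 1102, 1630, 2058, 2075, 2091, 2218, 2235, 2979, 4354, 4374, 4503, 4678, 6155, 6299, 6403, 6530, 6914, 7043, 8270, 8706, 8718, 8746, 8814, 9218, 9230, 9794, 10254, 10762, 11274, 11790, 13826, 13894]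

/-- the local check -/
def check (b : ℕ) : Bool := (List.range 14).all fun w => b.testBit w ||
  (!domB (b ||| 2 ^ w) && (List.range 14).any fun v => !(b ||| 2 ^ w).testBit v &&
    (domB ((b ||| 2 ^ w) ||| 2 ^ v) || Ps.contains ((b ||| 2 ^ w) ||| 2 ^ v)))

theorem check_all : ∀ b ∈ Ps, check b = true := by decide +kernel

theorem idx_lt (p : Fin 2 × Fin 7) : idx p < 14 := by
  unfold idx; have := p.1.isLt; have := p.2.isLt; omega

theorem idx_inj : ∀ p q : Fin 2 × Fin 7, idx p = idx q → p = q := by decide

theorem idx_surj : ∀ i < 14, ∃ p : Fin 2 × Fin 7, idx p = i := by decide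

theorem mk_spec : ∀ p : Fin 2 × Fin 7, ∀ q : Fin 2 × Fin 7,
    (mk.getD (idx p) 0).testBit (idx q) = true ↔
      (q = p ∨ ((q.1 = p.1 ∧ (q.2.val + 1 = p.2.val ∨ p.2.val + 1 = q.2.val)) ∨
        (q.2 = p.2 ∧ (q.1.val + 1 = p.1.val ∨ p.1.val + 1 = q.1.val)))) := by decide

theorem adj_iff (p q : Fin 2 × Fin 7) : G.Adj q p ↔
    ((q.1 = p.1 ∧ (q.2.val + 1 = p.2.val ∨ p.2.val + 1 = q.2.val)) ∨
        (q.2 = p.2 ∧ (q.1.val + 1 = p.1.val ∨ p.1.val + 1 = q.1.val))) := by
  rw [boxProd_adj, pathGraph_adj, pathGraph_adj]
  tauto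

theorem mk_lt : ∀ i < 14, mk.getD i 0 < 2 ^ 14 := by decide

theorem mem_dec {b : ℕ} {p : Fin 2 × Fin 7} : p ∈ dec b ↔ b.testBit (idx p) = true := by
  simp [dec]

theorem domB_iff (c : ℕ) : domB c = true ↔ IsDominating G (dec c) := by
  have h1 : domB c = true ↔ ∀ i < 14, mk.getD i 0 &&& c ≠ 0 := by
    unfold domB
    rw [List.all_eq_true]
    constructor
    · intro h i hi
      have hmem : mk.getD i 0 ∈ mk := by
        have hl : i < mk.length := by simpa [mk] using hi
        rw [List.getD_eq_getElem _ _ hl]
        exact List.getElem_mem hl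
      simpa using h _ hmem
    · intro h m hm
      obtain ⟨i, hi, rfl⟩ := List.getElem_of_mem hm
      have hi' : i < 14 := by simpa [mk] using hi
      have := h i hi'
      rw [List.getD_eq_getElem _ _ hi] at this
      simpa using this
  rw [h1]
  constructor
  · intro h p
    have hp := h (idx p) (idx_lt p)
    obtain ⟨j, hj⟩ := Nat.exists_testBit_of_ne_zero hp
    rw [Nat.testBit_and, Bool.and_eq_true] at hj
    have hj14 : j < 14 := by
      by_contra hge
      have : (mk.getD (idx p) 0).testBit j = false :=
        Nat.testBit_lt_two_pow (lt_of_lt_of_le (mk_lt _ (idx_lt p))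
          (Nat.pow_le_pow_right (by norm_num) (by omega)))
      rw [this] at hj
      simp at hj
    obtain ⟨q, rfl⟩ := idx_surj j hj14
    refine ⟨q, mem_dec.2 hj.2, ?_⟩
    rcases (mk_spec p q).1 hj.1 with h | h
    · exact Or.inl h
    · exact Or.inr ((adj_iff p q).2 h)
  · intro h i hi
    obtain ⟨p, rfl⟩ := idx_surj i hi
    obtain ⟨q, hq, hqp⟩ := h p
    have hb : (mk.getD (idx p) 0).testBit (idx q) = true := by
      rw [mk_spec]
      rcases hqp with h | h
      · exact Or.inl h
      · exact Or.inr ((adj_iff p q).1 h)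
    intro h0
    have : ((mk.getD (idx p) 0) &&& c).testBit (idx q) = true := by
      rw [Nat.testBit_and, hb, mem_dec.1 hq]; rfl
    rw [h0] at this
    simp at this

theorem dec_or (b : ℕ) (p : Fin 2 × Fin 7) : dec (b ||| 2 ^ idx p) = insert p (dec b) := by
  ext q
  rw [mem_dec, Finset.mem_insert, mem_dec, Nat.testBit_or, Nat.testBit_two_pow, Bool.or_eq_true,
    decide_eq_true_iff]
  constructor
  · rintro (h | h)
    · exact Or.inr h
    · exact Or.inl (idx_inj _ _ h).symm
  · rintro (h | h)
    · exact Or.inr (by rw [h])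
    · exact Or.inl h

theorem not_moverWins (n : ℕ) : ∀ b ∈ Ps, 14 - (dec b).card = n → ¬ MoverWins G (dec b) := by
  induction n using Nat.strong_induction_on with
  | _ n ih =>
    intro b hb hn hw
    rw [MoverWins] at hw
    obtain ⟨w, hwb, hw⟩ := hw
    have hc := check_all b hb
    unfold check at hc
    rw [List.all_eq_true] at hc
    have hcw := hc (idx w) (List.mem_range.2 (idx_lt w))
    have hwt : b.testBit (idx w) = false := by
      rw [mem_dec] at hwb
      simpa using hwb
    rw [hwt, Bool.false_or, Bool.and_eq_true, List.any_eq_true] at hcw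
    obtain ⟨hnd, v', hv', hcv⟩ := hcw
    obtain ⟨v, rfl⟩ := idx_surj v' (List.mem_range.1 hv')
    rw [Bool.and_eq_true, Bool.or_eq_true] at hcv
    obtain ⟨hvt, hcv⟩ := hcv
    have hvmem : v ∉ dec (b ||| 2 ^ idx w) := by
      rw [mem_dec]
      simpa using hvt
    rcases hw with hw | hw
    · rw [← dec_or, ← domB_iff] at hw
      rw [hw] at hnd
      simp at hnd
    · apply hw
      rw [← dec_or, MoverWins]
      refine ⟨v, hvmem, ?_⟩
      rw [← dec_or]
      rcases hcv with hcv | hcv
      · exact Or.inl ((domB_iff _).1 hcv)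
      · right
        have hmem : ((b ||| 2 ^ idx w) ||| 2 ^ idx v) ∈ Ps := by simpa using hcv
        refine ih _ ?_ _ hmem rfl
        have c1 : (dec ((b ||| 2 ^ idx w) ||| 2 ^ idx v)).card = (dec b).card + 2 := by
          rw [dec_or, Finset.card_insert_of_notMem hvmem, dec_or,
            Finset.card_insert_of_notMem hwb]
        have c2 : (dec ((b ||| 2 ^ idx w) ||| 2 ^ idx v)).card ≤ 14 := by
          have := Finset.card_le_univ (dec ((b ||| 2 ^ idx w) ||| 2 ^ idx v))
          simpa using this
        omega

/-- The first player wins the snooker domination game on `P_2 □ P_7`.  Since `2 * 7` is even,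
the second player does not win on all grids `P_k □ P_m` with `k, m ≥ 2` and `k m` even. -/
theorem result :
    FirstPlayerWins (pathGraph 2 □ pathGraph 7) ∧
    ¬ ∀ k m : ℕ, 2 ≤ k → 2 ≤ m → Even (k * m) → ¬ FirstPlayerWins (pathGraph k □ pathGraph m) := by
  have h : FirstPlayerWins (pathGraph 2 □ pathGraph 7) := by
    unfold FirstPlayerWins
    rw [MoverWins]
    refine ⟨(0, 1), by simp, Or.inr ?_⟩
    have h2 : dec 2 = insert ((0, 1) : Fin 2 × Fin 7) ∅ := by decide
    rw [← h2]
    exact not_moverWins _ 2 (by decide) rfl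
  exact ⟨h, fun H => H 2 7 (by norm_num) (by norm_num) (by decide) h⟩

end Pool.Agent.Results.MP_a0a898_co.FirstPlayerWinsP2P7
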